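import Pool.Agent.helper37.NF.Spec

set_option autoImplicit false

namespace Pool.Agent.helper37.NF

open Finset Pool.Agent.NK

theorem BAS (h : UNI_stmt) : BAS_stmt := by
  intro a b i j hi hj hab
  have h1 := h a b i j hi hj (by omega)
  have h2 : i * (a + b + 1) / (i + j) = 4 * i := by
    rw [hab]
    have e : i * (4 * (i + j) + 1) = i + (i + j) * (4 * i) := by ring
    rw [e, Nat.add_mul_div_left _ _ (by omega : 0 < i + j), Nat.div_eq_of_lt (by omega)]
    omega
  have h3 : a + b - 4 * i = 4 * j := by omega
  rw [h2, h3] at h1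
  exact h1

end Pool.Agent.helper37.NF
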