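import Pool.Agent.helper4.NF.SpecA

/-!
Module BSX of project nf (MP_4467b5_nt): the value at `0` of the smooth sums `Bs` is negligible (copy of the third part
of helper63/ZD/BSB.lean).
-/

set_option autoImplicit false

open Complex MeasureTheory

namespace Pool.Agent.NF

open Pool.Agent.helper84.DM Pool.Agent.helper78.ED Pool.Agent.DH Pool.Agent.ZD

theorem BSX_zero (h1 : CHX_stmt) (h2 : PHS_stmt) (h3 : IBU_stmt) (A : ℝ) (hA : 0 < A) :
    ∃ C : ℝ, 0 < C ∧ ∀ T X : ℝ, 1 ≤ T → T ^ (1 / 4 : ℝ) ≤ X → ∀ M : ℕ,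
      ‖Bs X M 0‖ ≤ C * T ^ (-A) := by
  obtain ⟨-, -, h1c⟩ := h1
  obtain ⟨C, hC0, hC⟩ := h3 _ h2.2.1 (⌈4 * A⌉₊ + 3)
  set j : ℕ := ⌈4 * A⌉₊ + 3 with hj
  have hjA : 4 * A + 1 ≤ (j : ℝ) := by
    have := Nat.le_ceil (4 * A)
    rw [hj]; push_cast; linarith
  have hS : Summable (fun n : ℤ => 1 / (n : ℝ) ^ 2) := Real.summable_one_div_int_pow.mpr (by norm_num)
  set S : ℝ := ∑' n : ℤ, 1 / (n : ℝ) ^ 2 with hSdef
  have hS0 : 0 ≤ S := tsum_nonneg (fun n => by positivity)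
  refine ⟨C * S + 1, by positivity, ?_⟩
  intro T X hT hTX M
  have hX1 : 1 ≤ X := (Real.one_le_rpow hT (by norm_num)).trans hTX
  have hX0 : 0 < X := by linarith
  have hterm : ∀ m ∈ MM M, ‖HH 0 ((m : ℝ) * X)‖ ≤ C * (1 / X ^ j) * (1 / (m : ℝ) ^ 2) := by
    intro m hm
    have hm0 : m ≠ 0 := by
      unfold MM at hm
      exact (Finset.mem_erase.mp hm).1
    have hm1 : 1 ≤ |(m : ℝ)| := by
      have : 1 ≤ |m| := Int.one_le_abs hm0
      exact_mod_cast this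
    have hb := hC 0 ((m : ℝ) * X)
    have hb' : ‖HH 0 ((m : ℝ) * X)‖ * |(m : ℝ) * X| ^ j ≤ C := by
      have h5 : C * (1 + |(0 : ℝ)|) ^ j = C := by simp
      rw [h5] at hb
      exact hb
    rw [abs_mul, abs_of_pos hX0, mul_pow] at hb'
    have hmj : |(m : ℝ)| ^ 2 ≤ |(m : ℝ)| ^ j := pow_le_pow_right₀ hm1 (by omega)
    have hXj : 0 < X ^ j := by positivity
    have hm2 : 0 < (m : ℝ) ^ 2 := by
      have : (m : ℝ) ≠ 0 := by exact_mod_cast hm0
      positivity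
    have h6 : ‖HH 0 ((m : ℝ) * X)‖ * ((m : ℝ) ^ 2 * X ^ j) ≤ C := by
      refine le_trans ?_ hb'
      rw [sq_abs] at hmj
      gcongr
    have h7 : ‖HH 0 ((m : ℝ) * X)‖ ≤ C / ((m : ℝ) ^ 2 * X ^ j) := by
      rw [le_div_iff₀ (by positivity)]
      exact h6
    refine h7.trans (le_of_eq ?_)
    field_simp
  rw [h1c, norm_mul, Complex.norm_real, Real.norm_eq_abs, abs_of_pos hX0]
  have hsum : ‖∑ m ∈ MM M, HH 0 ((m : ℝ) * X)‖ ≤ C * (1 / X ^ j) * S := by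
    refine (norm_sum_le _ _).trans ?_
    refine (Finset.sum_le_sum hterm).trans ?_
    rw [← Finset.mul_sum]
    have : ∑ m ∈ MM M, 1 / (m : ℝ) ^ 2 ≤ S := hS.sum_le_tsum _ (fun n _ => by positivity)
    have hnn : 0 ≤ C * (1 / X ^ j) := by positivity
    exact mul_le_mul_of_nonneg_left this hnn
  have hXle : X * (1 / X ^ j) ≤ T ^ (-A) := by
    have e1 : X * (1 / X ^ j) = X ^ (1 - (j : ℝ)) := by
      rw [Real.rpow_sub hX0, Real.rpow_one, Real.rpow_natCast]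
      ring
    rw [e1]
    have e2 : X ^ (1 - (j : ℝ)) ≤ X ^ (-(4 * A)) :=
      Real.rpow_le_rpow_of_exponent_le hX1 (by linarith)
    refine e2.trans ?_
    have e3 : X ^ (-(4 * A)) ≤ (T ^ (1 / 4 : ℝ)) ^ (-(4 * A)) :=
      Real.rpow_le_rpow_of_nonpos (by positivity) hTX (by linarith)
    refine e3.trans (le_of_eq ?_)
    rw [← Real.rpow_mul (by linarith)]
    congr 1
    ring
  calc X * ‖∑ m ∈ MM M, HH 0 ((m : ℝ) * X)‖ ≤ X * (C * (1 / X ^ j) * S) := by gcongr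
    _ = C * S * (X * (1 / X ^ j)) := by ring
    _ ≤ C * S * T ^ (-A) := by gcongr
    _ ≤ (C * S + 1) * T ^ (-A) := by
        have : 0 ≤ T ^ (-A) := by positivity
        nlinarith

theorem BSX (h1 : CHX_stmt) (h2 : PHS_stmt) (h3 : IBU_stmt) : BSX_stmt := fun A hA => BSX_zero h1 h2 h3 A hA

end Pool.Agent.NF
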