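import Pool.Agent.helper36.NF.SpecB

/-!
# Row nf:FOT (MP_37e5fa_nt): terms in the values of formulas are formulas
-/

set_option autoImplicit false

open Polynomial Filter FirstOrder FirstOrder.Language

namespace Pool.Agent.NoFormula

theorem FOT_fn {l : ℕ} (f : Fn l) (g : Fin l → Fml) :
    ∃ h : Fml, ∀ m : ℕ, fnInt f (fun i => (g i).eval m) = h.eval m := by
  cases f with
  | zero => exact ⟨.const 0, fun m => rfl⟩
  | one => exact ⟨.const 1, fun m => rfl⟩
  | neg => exact ⟨.sub (.const 0) (g 0), fun m => (zero_sub _).symm⟩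
  | pow2 => exact ⟨.pow2 (g 0), fun m => rfl⟩
  | add => exact ⟨.add (g 0) (g 1), fun m => rfl⟩
  | mul => exact ⟨.mul (g 0) (g 1), fun m => rfl⟩
  | ite => exact ⟨.ite (g 0) (g 1) (g 2), fun m => rfl⟩

/-- **FOT** -/
theorem FOT : FOT_stmt := by
  intro β v t
  induction t with
  | var b => exact ⟨v b, fun m => rfl⟩
  | func f ts ih =>
    choose g hg using ih
    obtain ⟨h, hh⟩ := FOT_fn f g
    refine ⟨h, fun m => ?_⟩
    rw [← hh m]
    show fnInt f (fun i => (ts i).realize fun b => (v b).eval m) = _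
    congr 1
    funext i
    exact hg i m

end Pool.Agent.NoFormula
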